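import Pool.Agent.H89.CM4.Targets2b

/-!
# Row HE1: the Hecke relation in the region of absolute convergence
-/

set_option autoImplicit false

open MeasureTheory Set Filter NumberField NumberField.InfinitePlace Pool.Agent.H65.CM4
  Pool.Agent.H89.CM4
open scoped Real

namespace Pool.Agent.H4.CM4.HE

variable {k : Type} [Field k] [NumberField k]

theorem sf_left {b : ℕ} {I g : Ideal (𝓞 k)} (h : Sf b (I * g)) : Sf b I :=
  ⟨fun e => h.ne (by rw [e, Ideal.bot_mul]), h.sq.of_mul_left,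
    top_le_iff.1 (h.cop ▸ sup_le_sup_right Ideal.mul_le_left _)⟩

theorem sf_right {b : ℕ} {I g : Ideal (𝓞 k)} (h : Sf b (I * g)) : Sf b g :=
  sf_left (by rw [mul_comm]; exact h)

theorem sf_dvd {b : ℕ} {J g : Ideal (𝓞 k)} (h : Sf b g) (hJ : J ∣ g) : Sf b J := by
  obtain ⟨c, rfl⟩ := hJ
  exact sf_left h

theorem sf_sup {b : ℕ} {I g : Ideal (𝓞 k)} (h : Sf b (I * g)) : I ⊔ g = ⊤ := by
  have h1 : IsRelPrime I g := (squarefree_mul_iff.1 h.sq).1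
  have h2 : IsUnit (I ⊔ g) :=
    h1 (Ideal.dvd_iff_le.2 le_sup_left) (Ideal.dvd_iff_le.2 le_sup_right)
  exact Ideal.isUnit_iff.1 h2

theorem sf_top {b : ℕ} : Sf b (⊤ : Ideal (𝓞 k)) := by
  refine ⟨top_ne_bot, ?_, top_sup_eq _⟩
  rw [← Ideal.one_eq_top]
  exact squarefree_one

theorem cp (a : ℝ) (ha : 0 < a) (z : ℂ) : (a : ℂ) ^ z = Complex.exp ((Real.log a : ℂ) * z) := by
  rw [Complex.cpow_def_of_ne_zero (by exact_mod_cast ha.ne'), Complex.ofReal_log ha.le]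

theorem pow_id (q A N g : ℝ) (hq : 0 < q) (hA : 0 < A) (hN : 0 < N) (hg : 0 < g) (s : ℂ) :
    (N : ℂ) * ((q / (A * g) : ℝ) : ℂ) ^ (-s) =
      (N : ℂ) ^ (1 - 2 * s) * (g : ℂ) ^ s * ((q / (A * N ^ 2) : ℝ) : ℂ) ^ (-s) := by
  rw [cp _ (by positivity), cp N hN, cp g hg, cp _ (by positivity)]
  have h1 : Real.log (q / (A * g)) = Real.log q - (Real.log A + Real.log g) := by
    rw [Real.log_div hq.ne' (by positivity), Real.log_mul hA.ne' hg.ne']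
  have h2 : Real.log (q / (A * N ^ 2)) = Real.log q - (Real.log A + 2 * Real.log N) := by
    rw [Real.log_div hq.ne' (by positivity), Real.log_mul hA.ne' (by positivity), Real.log_pow]
    norm_num
  have h3 : (N : ℂ) = Complex.exp (Real.log N : ℂ) := by
    rw [← Complex.ofReal_exp, Real.exp_log hN]
  rw [h1, h2]
  conv_lhs => rw [h3]
  rw [← Complex.exp_add, ← Complex.exp_add, ← Complex.exp_add]
  congr 1
  push_cast
  ring

open Classical in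
theorem sum_lattices {b : ℕ} [IsTotallyReal k] (hCRT : T_CRT k) {I g : Ideal (𝓞 k)} {L' : La k}
    (hIg : Sf b (I * g)) (hL' : L' ∈ Ls I) (F : La k → ℂ) :
    ∑ L ∈ (Ls (I * g)).filter (fun L => L ≤ L'), F L = ∑ L₂ ∈ Ls g, F (L' ⊓ L₂) := by
  obtain ⟨c1, c2, c3⟩ := hCRT I g (sf_left hIg).ne (sf_right hIg).ne (sf_sup hIg)
  symm
  refine Finset.sum_bij (fun L₂ _ => L' ⊓ L₂) ?_ ?_ ?_ ?_
  · intro L₂ h2
    exact Finset.mem_filter.2 ⟨c1 L' hL' L₂ h2, inf_le_left⟩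
  · intro L₂ h2 L₂' h2' he
    exact (c3 L' hL' L₂ h2 L' hL' L₂' h2' he.le).2
  · intro L hL
    obtain ⟨hL1, hL2⟩ := Finset.mem_filter.1 hL
    obtain ⟨L₁, h1, L₂, h2, he⟩ := c2 L hL1
    refine ⟨L₂, h2, ?_⟩
    have h3 : L₁ ⊓ L₂ ≤ L' ⊓ L₂ := le_inf (he ▸ hL2) inf_le_right
    rw [he, (c3 L₁ h1 L₂ h2 L' hL' L₂ h2 h3).1]
  · intro L₂ h2
    rfl

end Pool.Agent.H4.CM4.HE

namespace Pool.Agent.H4.CM4

open HE

variable (k : Type) [Field k] [NumberField k] [IsTotallyReal k]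

/-- Row HE1. -/
theorem pf_HE1 (hEZA : T_EZA k) (hCNL : T_CNL k) (hIXC : T_IXC k) (hQZR : T_QZR k)
    (hCRT : T_CRT k) (_hFLS : T_FLS k) (_hIDC : T_IDC k) : T_HE1 k := by
  classical
  intro b M I g L' x y s hb hM hIg hL' hy hs1 hs2
  have hI : Sf b I := sf_left hIg
  have hg : Sf b g := sf_right hIg
  obtain ⟨c1, -, -⟩ := hCRT I g hI.ne hg.ne (sf_sup hIg)
  obtain ⟨hM0, -, hix⟩ := hIXC b M hb hM
  have aN : ∀ J : Ideal (𝓞 k), J ≠ ⊥ → Ideal.absNorm J ≠ 0 := fun J hJ h =>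
    hJ (Ideal.absNorm_eq_zero_iff.1 h)
  have nmp : ∀ J : Ideal (𝓞 k), J ≠ ⊥ → 0 < nm J := fun J hJ => by
    unfold nm
    exact_mod_cast Nat.pos_of_ne_zero (aN J hJ)
  obtain ⟨A, hA⟩ : ∃ A : ℝ, A = ix M * nm I := ⟨_, rfl⟩
  have hA0 : 0 < A := by
    rw [hA]
    exact mul_pos (by exact_mod_cast hM0) (nmp I hI.ne)
  have i1 : ∀ L ∈ Ls g, ix (M ⊓ (L' ⊓ L)) ≠ 0 ∧ (ix (M ⊓ (L' ⊓ L)) : ℝ) = A * nm g := by
    intro L hL
    have h1 := (hix (I * g) ⊤ (L' ⊓ L) hIg sf_top (sup_top_eq _) (c1 L' hL' L hL)).1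
    constructor
    · rw [h1]
      exact mul_ne_zero hM0.ne' (aN _ hIg.ne)
    · rw [h1, hA, map_mul]
      unfold nm
      push_cast
      ring
  have i2 : ∀ J ∈ dv g, J ≠ ⊥ ∧ ix (M ⊓ L' ⊓ kO J) ≠ 0 ∧
      (ix (M ⊓ L' ⊓ kO J) : ℝ) = A * nm J ^ 2 := by
    intro J hJ
    have hd : J ∣ g := (Finset.mem_filter.1 hJ).2
    have hJ' : Sf b J := sf_dvd hg hd
    have hIJ : I ⊔ J = ⊤ :=
      top_le_iff.1 (sf_sup hIg ▸ sup_le_sup_left (Ideal.le_of_dvd hd) _)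
    have h1 := (hix I J L' hI hJ' hIJ hL').2
    refine ⟨hJ'.ne, ?_, ?_⟩
    · rw [h1]
      exact mul_ne_zero (mul_ne_zero hM0.ne' (aN _ hI.ne)) (pow_ne_zero 2 (aN _ hJ'.ne))
    · rw [h1, hA]
      unfold nm
      push_cast
      ring
  -- the metric
  obtain ⟨q, hq⟩ : ∃ q : V2 k → ℝ, q = fun u =>
    (qn (fun v => (x v : ℂ)) (fun v => (y v : ℂ)) u).re := ⟨_, rfl⟩
  have hqn : ∀ u, u ≠ 0 → qn (fun v => (x v : ℂ)) (fun v => (y v : ℂ)) u = (q u : ℂ) ∧ 0 < q u := by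
    intro u hu
    obtain ⟨h1, h2⟩ := hQZR.1 x y u hy hu
    rw [hq]
    exact ⟨Complex.ext rfl (by rw [h1, Complex.ofReal_im]), h2⟩
  obtain ⟨T, hT⟩ : ∃ T : V2 k → ℂ, T = fun u => ((q u / (A * nm g) : ℝ) : ℂ) ^ (-s) := ⟨_, rfl⟩
  -- the lattices L
  have e1 : ∀ L ∈ Ls g, Summable (fun u : V2 k => if u ∈ M ⊓ (L' ⊓ L) ∧ u ∈ Fo k then T u else 0) ∧
      Ez s (M ⊓ (L' ⊓ L)) x y = gG s ^ dg k *
        ∑' u : V2 k, if u ∈ M ⊓ (L' ⊓ L) ∧ u ∈ Fo k then T u else 0 := by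
    intro L hL
    obtain ⟨h0, h1⟩ := i1 L hL
    have h2 := (hEZA (M ⊓ (L' ⊓ L)) x y h0 hy).2 s hs1 hs2
    have h3 : (fun u : V2 k => if u ∈ M ⊓ (L' ⊓ L) ∧ u ∈ Fo k then
        (qn (fun v => (x v : ℂ)) (fun v => (y v : ℂ)) u / (ix (M ⊓ (L' ⊓ L)) : ℂ)) ^ (-s) else 0) =
        fun u : V2 k => if u ∈ M ⊓ (L' ⊓ L) ∧ u ∈ Fo k then T u else 0 := by
      funext u
      by_cases hu : u ∈ M ⊓ (L' ⊓ L) ∧ u ∈ Fo k
      · rw [if_pos hu, if_pos hu, (hqn u hu.2.1).1, hT]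
        have h4 : ((ix (M ⊓ (L' ⊓ L)) : ℕ) : ℂ) = ((A * nm g : ℝ) : ℂ) := by
          rw [← h1]
          push_cast
          rfl
        simp only
        rw [h4, Complex.ofReal_div]
      · rw [if_neg hu, if_neg hu]
    rw [h3] at h2
    exact h2
  -- the multiples of J
  have e2 : ∀ J ∈ dv g, Summable (fun u : V2 k => ((nm J : ℝ) : ℂ) *
      if u ∈ M ⊓ L' ⊓ kO J ∧ u ∈ Fo k then T u else 0) ∧
      gG s ^ dg k * ∑' u : V2 k, ((nm J : ℝ) : ℂ) *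
        (if u ∈ M ⊓ L' ⊓ kO J ∧ u ∈ Fo k then T u else 0) =
      ((nm J : ℝ) : ℂ) ^ (1 - 2 * s) * ((nm g : ℝ) : ℂ) ^ s * Ez s (M ⊓ L' ⊓ kO J) x y := by
    intro J hJ
    obtain ⟨hJ0, h0, h1⟩ := i2 J hJ
    obtain ⟨h2, h2'⟩ := (hEZA (M ⊓ L' ⊓ kO J) x y h0 hy).2 s hs1 hs2
    have h3 : (fun u : V2 k => ((nm J : ℝ) : ℂ) *
        if u ∈ M ⊓ L' ⊓ kO J ∧ u ∈ Fo k then T u else 0) =
        fun u : V2 k => (((nm J : ℝ) : ℂ) ^ (1 - 2 * s) * ((nm g : ℝ) : ℂ) ^ s) *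
          if u ∈ M ⊓ L' ⊓ kO J ∧ u ∈ Fo k then
        (qn (fun v => (x v : ℂ)) (fun v => (y v : ℂ)) u / (ix (M ⊓ L' ⊓ kO J) : ℂ)) ^ (-s) else 0 := by
      funext u
      by_cases hu : u ∈ M ⊓ L' ⊓ kO J ∧ u ∈ Fo k
      · rw [if_pos hu, if_pos hu, (hqn u hu.2.1).1, hT]
        have h4 : ((ix (M ⊓ L' ⊓ kO J) : ℕ) : ℂ) = ((A * nm J ^ 2 : ℝ) : ℂ) := by
          rw [← h1]
          push_cast
          rfl
        simp only
        rw [h4, ← Complex.ofReal_div]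
        exact pow_id (q u) A (nm J) (nm g) (hqn u hu.2.1).2 hA0 (nmp J hJ0) (nmp g hg.ne) s
      · rw [if_neg hu, if_neg hu, mul_zero, mul_zero]
    rw [h3]
    refine ⟨h2.mul_left _, ?_⟩
    rw [tsum_mul_left, h2']
    ring
  rw [sum_lattices hCRT hIg hL', Finset.sum_congr rfl fun L hL => (e1 L hL).2, ← Finset.mul_sum,
    ← Summable.tsum_finsetSum fun L hL => (e1 L hL).1,
    ← Finset.sum_congr rfl fun J hJ => (e2 J hJ).2, ← Finset.mul_sum,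
    ← Summable.tsum_finsetSum fun J hJ => (e2 J hJ).1]
  congr 1
  refine tsum_congr fun u => ?_
  by_cases hu : u ∈ M ⊓ L' ∧ u ∈ Fo k
  · have h1 : ∀ L ∈ Ls g, (if u ∈ M ⊓ (L' ⊓ L) ∧ u ∈ Fo k then T u else 0) =
        if u ∈ L then T u else 0 := by
      intro L _
      by_cases h : u ∈ L
      · rw [if_pos h, if_pos ⟨⟨hu.1.1, ⟨hu.1.2, h⟩⟩, hu.2⟩]
      · rw [if_neg h, if_neg fun h' => h h'.1.2.2]
    have h2 : ∀ J ∈ dv g, ((nm J : ℝ) : ℂ) *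
        (if u ∈ M ⊓ L' ⊓ kO J ∧ u ∈ Fo k then T u else 0) =
        if u ∈ kO J then ((nm J : ℝ) : ℂ) * T u else 0 := by
      intro J _
      by_cases h : u ∈ kO J
      · rw [if_pos h, if_pos ⟨⟨hu.1, h⟩, hu.2⟩]
      · rw [if_neg h, if_neg fun h' => h h'.1.2, mul_zero]
    rw [Finset.sum_congr rfl h1, Finset.sum_congr rfl h2, ← Finset.sum_filter,
      ← Finset.sum_filter, Finset.sum_const, ← Finset.sum_mul, nsmul_eq_mul]
    congr 1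
    have h3 := hCNL g u hg.ne hg.sq
    have h4 := congrArg (fun r : ℝ => (r : ℂ)) h3
    simp only [Complex.ofReal_natCast, Complex.ofReal_sum] at h4
    exact h4
  · rw [Finset.sum_eq_zero, Finset.sum_eq_zero]
    · intro J _
      rw [if_neg fun h' => hu ⟨h'.1.1, h'.2⟩, mul_zero]
    · intro L _
      rw [if_neg fun h' => hu ⟨⟨h'.1.1, h'.1.2.1⟩, h'.2⟩]

end Pool.Agent.H4.CM4
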