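import Pool.Agent.H89.CM4.Targets2

/-!
# Row QZR: the metric with real parameters
-/

set_option autoImplicit false

open MeasureTheory Set Filter NumberField NumberField.InfinitePlace Pool.Agent.H65.CM4
  Pool.Agent.H89.CM4
open scoped Real

namespace Pool.Agent.H4.CM4

variable {k : Type} [Field k] [NumberField k] [IsTotallyReal k]

theorem qzr_coe (x y : Pl k → ℝ) (u : V2 k) :
    qn (fun v => (x v : ℂ)) (fun v => (y v : ℂ)) u =
      ((∏ v : Pl k, ((rv v (u.1 : k) + rv v (u.2 : k) * x v) ^ 2 + (rv v (u.2 : k) * y v) ^ 2) /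
        (2 * y v) : ℝ) : ℂ) := by
  unfold qn qc
  rw [Complex.ofReal_prod]
  refine Finset.prod_congr rfl fun v _ => ?_
  push_cast
  ring

theorem rv_inj (v : Pl k) {a : 𝓞 k} (h : rv v (a : k) = 0) : a = 0 := by
  have h1 : (a : k) = 0 := (map_eq_zero (rv v)).1 h
  exact_mod_cast h1

theorem qzr_pos (x y : Pl k → ℝ) (u : V2 k) (hy : ∀ v, 0 < y v) (hu : u ≠ 0) (v : Pl k) :
    0 < ((rv v (u.1 : k) + rv v (u.2 : k) * x v) ^ 2 + (rv v (u.2 : k) * y v) ^ 2) /
        (2 * y v) := by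
  have hyv := hy v
  refine div_pos ?_ (by positivity)
  rcases eq_or_ne (rv v (u.2 : k)) 0 with h | h
  · have h2 : u.2 = 0 := rv_inj v h
    have h1 : rv v (u.1 : k) ≠ 0 := by
      intro h1
      exact hu (Prod.ext (rv_inj v h1) h2)
    rw [h]
    simp only [zero_mul, add_zero]
    positivity
  · have h3 : rv v (u.2 : k) * y v ≠ 0 := mul_ne_zero h hyv.ne'
    positivity

variable (k)

/-- Row QZR. -/
theorem pf_QZR (hEMB : T_EMB k) : T_QZR k := by
  refine ⟨fun x y u hy hu => ?_, fun x y u e => ?_, fun x y u a => ?_, fun Q hQ => ?_⟩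
  · rw [qzr_coe]
    exact ⟨Complex.ofReal_im _, by
      rw [Complex.ofReal_re]
      exact Finset.prod_pos fun v _ => qzr_pos x y u hy hu v⟩
  · obtain ⟨-, -, -, -, -, -, -, hNr, -⟩ := hEMB
    have h1 : ∏ v : Pl k, ((rv v ((e : 𝓞 k) : k) : ℝ) : ℂ) ^ 2 = 1 := by
      have h2 := hNr e
      unfold Nr at h2
      have h3 : ∏ v : Pl k, rv v ((e : 𝓞 k) : k) ^ 2 = 1 := by
        have h4 : ∏ v : Pl k, rv v ((e : 𝓞 k) : k) ^ 2 = (∏ v : Pl k, |rv v ((e : 𝓞 k) : k)|) ^ 2 := by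
          rw [← Finset.prod_pow]
          exact Finset.prod_congr rfl fun v _ => (sq_abs _).symm
        rw [h4, h2, one_pow]
      have h5 : ((∏ v : Pl k, rv v ((e : 𝓞 k) : k) ^ 2 : ℝ) : ℂ) = 1 := by rw [h3, Complex.ofReal_one]
      rw [Complex.ofReal_prod] at h5
      rw [← h5]
      exact Finset.prod_congr rfl fun v _ => by push_cast; rfl
    have h2 : qn x y (((e : 𝓞 k)) • u) =
        (∏ v : Pl k, ((rv v ((e : 𝓞 k) : k) : ℝ) : ℂ) ^ 2) * qn x y u := by
      unfold qn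
      rw [← Finset.prod_mul_distrib]
      refine Finset.prod_congr rfl fun v _ => ?_
      unfold qc
      have e1 : rv v (((((e : 𝓞 k)) • u).1 : 𝓞 k) : k) = rv v ((e : 𝓞 k) : k) * rv v (u.1 : k) := by
        rw [Prod.smul_fst, smul_eq_mul, ← map_mul]
        rfl
      have e2 : rv v (((((e : 𝓞 k)) • u).2 : 𝓞 k) : k) = rv v ((e : 𝓞 k) : k) * rv v (u.2 : k) := by
        rw [Prod.smul_snd, smul_eq_mul, ← map_mul]
        rfl
      rw [e1, e2]
      push_cast
      ring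
    rw [h2, h1, one_mul]
  · unfold qn qc
    refine Finset.prod_congr rfl fun v _ => ?_
    have e1 : rv v ((u.1 + a * u.2 : 𝓞 k) : k) = rv v (u.1 : k) + rv v (a : k) * rv v (u.2 : k) := by
      rw [← map_mul, ← map_add]
      rfl
    simp only [e1]
    push_cast
    ring
  · have hzy : ∀ v, 0 < zy Q v := by
      intro v
      obtain ⟨h1, h2⟩ := hQ v
      unfold zy
      have := Real.sqrt_pos.2 h2
      positivity
    refine ⟨hzy, fun u => ?_⟩
    rw [qzr_coe]
    congr 1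
    refine Finset.prod_congr rfl fun v _ => ?_
    obtain ⟨h1, h2⟩ := hQ v
    have h3 := Real.sqrt_pos.2 h2
    have h4 : Real.sqrt (rv v (dsc Q : k)) ^ 2 = rv v (dsc Q : k) := Real.sq_sqrt h2.le
    have h5 : rv v (dsc Q : k) = 4 * (rv v (Q.1 : k) * rv v (Q.2.2 : k)) - rv v (Q.2.1 : k) ^ 2 := by
      have : ((dsc Q : 𝓞 k) : k) = 4 * ((Q.1 : k) * (Q.2.2 : k)) - (Q.2.1 : k) ^ 2 := by
        unfold dsc
        push_cast
        rfl
      rw [this, map_sub, map_mul, map_mul, map_pow, map_ofNat]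
    have h6 : rv v (val Q u : k) = rv v (Q.1 : k) * rv v (u.1 : k) ^ 2 +
        rv v (Q.2.1 : k) * (rv v (u.1 : k) * rv v (u.2 : k)) +
        rv v (Q.2.2 : k) * rv v (u.2 : k) ^ 2 := by
      have : ((val Q u : 𝓞 k) : k) = (Q.1 : k) * (u.1 : k) ^ 2 +
          (Q.2.1 : k) * ((u.1 : k) * (u.2 : k)) + (Q.2.2 : k) * (u.2 : k) ^ 2 := by
        unfold val
        push_cast
        rfl
      rw [this]
      simp only [map_add, map_mul, map_pow]
    rw [h6]
    unfold zx zy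
    obtain ⟨σ, hσ⟩ : ∃ σ, σ = Real.sqrt (rv v (dsc Q : k)) := ⟨_, rfl⟩
    rw [← hσ] at h3 h4 ⊢
    rw [h5] at h4
    have h1' := h1.ne'
    have h3' := h3.ne'
    field_simp
    ring_nf
    ring_nf at h4
    rw [h4]
    ring

end Pool.Agent.H4.CM4
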